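import Mathlib

/-!
# MP_d9dcf6_co, Q1: the pseudofan statement is false (already for `n = 3`, and for minimal
# pseudofans)

The columns are `16` integer vectors in `ℝ^3`.  The `56` simplicial cones of the list `triL`
form a pseudofan which covers `ℝ^3` twice: it is a branched double covering of the sphere by a
connected triangulated surface, all of whose triangles are empty.  The list was found with a SAT
solver; everything is checked by integer arithmetic.
-/

namespace Pool.Agent.Results.MP_d9dcf6_co.DoubleCover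

open scoped BigOperators

/-- The real vector of an integer vector. -/
def toR {n : ℕ} (v : Fin n → ℤ) : Fin n → ℝ := fun k => (v k : ℝ)

variable {n m : ℕ}

/-- The closed cone spanned by the columns of `V` with index in `S`. -/
def cone (V : Fin m → Fin n → ℤ) (S : Finset (Fin m)) : Set (Fin n → ℝ) :=
  {x | ∃ c : Fin m → ℝ, (∀ i, 0 ≤ c i) ∧ (∀ i, i ∉ S → c i = 0) ∧ x = ∑ i, c i • toR (V i)}

/-- `V` (given by its columns `V i`) is an F-matrix. -/
structure IsFMatrix (V : Fin m → Fin n → ℤ) : Prop where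
  rank : Submodule.span ℝ (Set.range fun i => toR (V i)) = ⊤
  ne_zero : ∀ i, V i ≠ 0
  not_multiple : ∀ i j, i ≠ j → ¬ ∃ t : ℝ, 0 < t ∧ toR (V i) = t • toR (V j)
  generates : ∀ x, x ∈ cone V Finset.univ
  gcd_one : ∀ i, ∀ d : ℕ, (∀ k, (d : ℤ) ∣ V i k) → d = 1

/-- The cone of `S` belongs to the family `𝓜`: it is `n`-dimensional simplicial, generated by
the `n` linearly independent columns with index in `S`, and contains no other column. -/
def InM (V : Fin m → Fin n → ℤ) (S : Finset (Fin m)) : Prop :=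
  S.card = n ∧ LinearIndepOn ℝ (fun i => toR (V i)) (S : Set (Fin m)) ∧
    ∀ j, j ∉ S → toR (V j) ∉ cone V S

/-- `C` (a family of index sets of cones) is a pseudofan of `V`.  The facets of the cone of `S`
are the cones of the sets `S.erase i`, `i ∈ S`. -/
structure IsPseudofan (V : Fin m → Fin n → ℤ) (C : Finset (Finset (Fin m))) : Prop where
  subset : ∀ S ∈ C, InM V S
  rays : ∀ i, ∃ S ∈ C, i ∈ S
  facets : ∀ S ∈ C, ∀ i ∈ S, ∃ T ∈ C, T ≠ S ∧ S.erase i ⊆ T ∧
    (∀ T' ∈ C, T' ≠ S → S.erase i ⊆ T' → T' = T) ∧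
    ∃ l : (Fin n → ℝ) →ₗ[ℝ] ℝ, (∀ j ∈ S.erase i, l (toR (V j)) = 0) ∧ 0 < l (toR (V i)) ∧
      ∀ x ∈ cone V T, l x ≤ 0

/-- `F` (a family of index sets) is a complete simplicial fan with rays exactly the rays of the
columns of `V`. -/
structure IsCompleteSimplicialFan (V : Fin m → Fin n → ℤ) (F : Set (Finset (Fin m))) : Prop where
  simplicial : ∀ S ∈ F, LinearIndepOn ℝ (fun i => toR (V i)) (S : Set (Fin m))
  faces : ∀ S ∈ F, ∀ T, T ⊆ S → T ∈ F
  inter : ∀ S ∈ F, ∀ T ∈ F, ∃ U, U ⊆ S ∧ U ⊆ T ∧ cone V S ∩ cone V T = cone V U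
  complete : ∀ x, ∃ S ∈ F, x ∈ cone V S
  rays : ∀ i, {i} ∈ F

/-- `C` is the set of `n`-dimensional cones of some complete simplicial fan of `V`. -/
def IsMaxConesOfFan (V : Fin m → Fin n → ℤ) (C : Finset (Finset (Fin m))) : Prop :=
  ∃ F : Set (Finset (Fin m)), IsCompleteSimplicialFan V F ∧
    (C : Set (Finset (Fin m))) = {S | S ∈ F ∧ S.card = n}

/-! ### General lemmas in dimension three -/

/-- Integer scalar product. -/
def dotZ (a b : Fin 3 → ℤ) : ℤ := a 0 * b 0 + a 1 * b 1 + a 2 * b 2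

/-- Integer cross product. -/
def crossZ (a b : Fin 3 → ℤ) : Fin 3 → ℤ :=
  ![a 1 * b 2 - a 2 * b 1, a 2 * b 0 - a 0 * b 2, a 0 * b 1 - a 1 * b 0]

/-- The linear functional `x ↦ a · x`. -/
noncomputable def lin (a : Fin 3 → ℤ) : (Fin 3 → ℝ) →ₗ[ℝ] ℝ :=
  (a 0 : ℝ) • LinearMap.proj 0 + (a 1 : ℝ) • LinearMap.proj 1 + (a 2 : ℝ) • LinearMap.proj 2

theorem lin_apply (a : Fin 3 → ℤ) (x : Fin 3 → ℝ) :
    lin a x = (a 0 : ℝ) * x 0 + (a 1 : ℝ) * x 1 + (a 2 : ℝ) * x 2 := by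
  simp [lin]

theorem lin_toR (a b : Fin 3 → ℤ) : lin a (toR b) = ((dotZ a b : ℤ) : ℝ) := by
  rw [lin_apply, dotZ]
  simp [toR]

/-- A functional which is `≤ 0` on the generators is `≤ 0` on the cone. -/
theorem lin_nonpos {V : Fin m → Fin 3 → ℤ} {S : Finset (Fin m)} {a : Fin 3 → ℤ}
    (h : ∀ i ∈ S, dotZ a (V i) ≤ 0) {x : Fin 3 → ℝ} (hx : x ∈ cone V S) : lin a x ≤ 0 := by
  obtain ⟨c, hc0, hcS, rfl⟩ := hx
  rw [map_sum]
  apply Finset.sum_nonpos
  intro i _
  rw [map_smul, lin_toR, smul_eq_mul]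
  by_cases hi : i ∈ S
  · exact mul_nonpos_of_nonneg_of_nonpos (hc0 i) (by exact_mod_cast h i hi)
  · rw [hcS i hi, zero_mul]

/-- A functional which is `≥ 0` on the generators is `≥ 0` on the cone. -/
theorem lin_nonneg {V : Fin m → Fin 3 → ℤ} {S : Finset (Fin m)} {a : Fin 3 → ℤ}
    (h : ∀ i ∈ S, 0 ≤ dotZ a (V i)) {x : Fin 3 → ℝ} (hx : x ∈ cone V S) : 0 ≤ lin a x := by
  obtain ⟨c, hc0, hcS, rfl⟩ := hx
  rw [map_sum]
  apply Finset.sum_nonneg
  intro i _
  rw [map_smul, lin_toR, smul_eq_mul]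
  by_cases hi : i ∈ S
  · exact mul_nonneg (hc0 i) (by exact_mod_cast h i hi)
  · rw [hcS i hi, zero_mul]

/-- Cramer's rule. -/
theorem cramer (a b c : Fin 3 → ℤ) (x : Fin 3 → ℝ) :
    ((dotZ (crossZ b c) a : ℤ) : ℝ) • x = lin (crossZ b c) x • toR a + lin (crossZ c a) x • toR b
      + lin (crossZ a b) x • toR c := by
  ext k
  simp only [lin_apply, Pi.smul_apply, Pi.add_apply, smul_eq_mul, toR, dotZ, crossZ]
  fin_cases k <;> simp <;> ring

/-! ### The example -/

/-- Entries of the columns. -/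
def VL : List ℤ := [-10, -2, -3, 1, -9, 7, -5, 7, 2, -1, 10, -5, 2, 7, 4, 8, 1, 9, 2, -9, -2, -10, 3, 2, 11, -3,
    1, -1, 2, 8, -4, -7, -5, 7, 0, -8, -1, -2, -9, 6, 6, -1, -2, 5, -10, -6, -3, 7]

/-- The `16` columns. -/
def V0 (i : Fin 16) (k : Fin 3) : ℤ := VL.getD (3 * i.val + k.val) 0

/-- Indices of the generators of the `56` cones. -/
def triL : List ℕ := [0, 2, 3, 0, 4, 2, 0, 3, 13, 0, 7, 4, 0, 5, 9, 0, 15, 5, 0, 10, 7, 0, 9, 12, 0, 14, 10, 0,
    12, 15, 0, 13, 14, 1, 4, 3, 1, 3, 9, 1, 5, 4, 1, 6, 5, 1, 12, 6, 1, 11, 8, 1, 8, 15, 1, 9,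
    10, 1, 10, 14, 1, 15, 11, 1, 14, 12, 2, 11, 3, 2, 4, 8, 2, 7, 9, 2, 14, 7, 2, 8, 13, 2, 9,
    14, 2, 13, 11, 3, 4, 13, 3, 11, 6, 3, 6, 12, 3, 14, 9, 3, 12, 14, 4, 5, 6, 4, 6, 8, 4, 7,
    15, 4, 15, 13, 5, 8, 12, 5, 15, 8, 5, 11, 9, 5, 12, 11, 6, 7, 10, 6, 15, 7, 6, 10, 8, 6, 11,
    15, 7, 12, 9, 7, 11, 12, 7, 14, 11, 8, 10, 12, 8, 11, 14, 8, 14, 13, 9, 15, 10, 9, 11, 13,
    9, 13, 15, 10, 15, 12]

/-- The three generators of the cone `t`. -/
def tri (t : Fin 56) (p : Fin 3) : Fin 16 := Fin.ofNat 16 (triL.getD (3 * t.val + p.val) 0)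

/-- The neighbours of the cones. -/
def nbL : List ℕ := [22, 2, 1, 23, 0, 3, 29, 10, 0, 36, 1, 6, 40, 7, 5, 39, 4, 9, 42, 3, 8, 46, 9, 4, 19, 6, 10,
    55, 5, 7, 51, 8, 2, 29, 12, 13, 32, 18, 11, 34, 11, 14, 34, 13, 15, 31, 14, 21, 50, 17, 20,
    39, 20, 16, 52, 19, 12, 8, 21, 18, 45, 16, 17, 33, 15, 19, 30, 0, 28, 35, 26, 1, 46, 27, 25,
    48, 24, 27, 51, 28, 23, 32, 25, 24, 53, 22, 26, 37, 2, 11, 45, 31, 22, 15, 33, 30, 27, 12,
    33, 21, 32, 31, 14, 35, 13, 44, 23, 34, 43, 37, 3, 54, 29, 36, 49, 41, 39, 17, 38, 5, 53, 4,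
    41, 47, 40, 38, 6, 44, 43, 36, 42, 45, 49, 35, 42, 20, 43, 30, 7, 24, 47, 41, 46, 48, 50,
    47, 25, 55, 38, 44, 48, 51, 16, 10, 26, 50, 55, 18, 54, 28, 54, 40, 37, 52, 53, 9, 49, 52]

/-- The cone on the other side of the facet of `t` opposite to its generator number `p`. -/
def nb (t : Fin 56) (p : Fin 3) : Fin 56 := Fin.ofNat 56 (nbL.getD (3 * t.val + p.val) 0)

/-- Distance of the cone `t` to the cone `0`. -/
def depL : List ℕ := [0, 1, 1, 2, 5, 6, 3, 6, 3, 7, 2, 3, 4, 4, 5, 4, 5, 5, 5, 4, 4, 5, 1, 2, 7, 6, 3, 6, 2, 2, 2,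
    3, 5, 4, 4, 3, 3, 3, 6, 6, 4, 5, 4, 4, 4, 3, 7, 6, 5, 5, 4, 3, 5, 3, 4, 6]

def ppL : List ℕ := [0, 1, 2, 1, 0, 1, 1, 2, 2, 0, 2, 0, 2, 1, 2, 0, 2, 1, 2, 0, 0, 1, 1, 2, 1, 0, 1, 0, 1, 1, 2,
    2, 2, 2, 1, 1, 2, 1, 1, 0, 0, 1, 0, 2, 1, 2, 0, 0, 0, 2, 1, 0, 2, 0, 2, 2]

def qqL : List ℕ := [0, 2, 1, 2, 1, 2, 2, 1, 1, 0, 1, 2, 1, 2, 1, 0, 1, 2, 1, 0, 0, 2, 0, 0, 2, 2, 2, 0, 2, 0, 0,
    1, 1, 1, 2, 0, 0, 0, 2, 0, 2, 2, 0, 1, 0, 0, 0, 0, 0, 0, 2, 0, 1, 0, 1, 0]

def dep (t : Fin 56) : ℕ := depL.getD t.val 0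

def pp (t : Fin 56) : Fin 3 := Fin.ofNat 3 (ppL.getD t.val 0)

def qq (t : Fin 56) : Fin 3 := Fin.ofNat 3 (qqL.getD t.val 0)

/-- Bezout coefficients for the columns. -/
def bezL : List ℤ := [0, 1, -1, -1, -1, -1, -2, -1, -1, -1, 0, 0, -1, 1, -1, -1, 0, 1, -2, -1, 2, 0, 1, -1, 0, 0,
    1, -1, 0, 0, 1, 0, -1, -1, -1, -1, -1, 0, 0, -1, 1, -1, 2, -1, -1, 1, 0, 1]

def bez (i : Fin 16) (k : Fin 3) : ℤ := bezL.getD (3 * i.val + k.val) 0

/-- The inner normal of the facet of `t` opposite to its generator number `p`. -/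
def nrm (t : Fin 56) (p : Fin 3) : Fin 3 → ℤ :=
  crossZ (V0 (tri t (p + 1))) (V0 (tri t (p + 2)))

/-- The index set of the cone `t`. -/
def cell (t : Fin 56) : Finset (Fin 16) := Finset.univ.image (tri t)

/-- The pseudofan. -/
def C0 : Finset (Finset (Fin 16)) := Finset.univ.image cell

theorem mem_cell (t : Fin 56) (x : Fin 16) : x ∈ cell t ↔ ∃ p, tri t p = x := by
  simp [cell]

theorem mem_C0 (S : Finset (Fin 16)) : S ∈ C0 ↔ ∃ t, cell t = S := by
  simp [C0]

theorem tri_inj : ∀ t : Fin 56, ∀ p q : Fin 3, tri t p = tri t q → p = q := by decide +kernel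

theorem nrm_self : ∀ t : Fin 56, ∀ p : Fin 3, 0 < dotZ (nrm t p) (V0 (tri t p)) := by
  decide +kernel

theorem nrm_other : ∀ t : Fin 56, ∀ p q : Fin 3, q ≠ p → dotZ (nrm t p) (V0 (tri t q)) = 0 := by
  decide +kernel

theorem empty0 : ∀ t : Fin 56, ∀ j : Fin 16, (∀ p, tri t p ≠ j) →
    ∃ p, dotZ (nrm t p) (V0 j) < 0 := by
  decide +kernel

theorem nb_other : ∀ t : Fin 56, ∀ p : Fin 3, ∃ q : Fin 3, ∀ r, tri t r ≠ tri (nb t p) q := by
  decide +kernel

theorem nb_mem : ∀ t : Fin 56, ∀ p q : Fin 3, q ≠ p → ∃ r, tri (nb t p) r = tri t q := by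
  decide +kernel

theorem nb_side : ∀ t : Fin 56, ∀ p q : Fin 3, dotZ (nrm t p) (V0 (tri (nb t p) q)) ≤ 0 := by
  decide +kernel

theorem nb_unique : ∀ t : Fin 56, ∀ p : Fin 3, ∀ s : Fin 56,
    (∃ r, tri s r = tri t (p + 1)) → (∃ r, tri s r = tri t (p + 2)) → s = t ∨ s = nb t p := by
  decide +kernel

theorem rays0 : ∀ i : Fin 16, ∃ t : Fin 56, ∃ p, tri t p = i := by decide +kernel

theorem parent : ∀ t : Fin 56, t ≠ 0 → dep (nb t (pp t)) < dep t ∧
    nb (nb t (pp t)) (qq t) = t := by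
  decide +kernel

theorem card_cell (t : Fin 56) : (cell t).card = 3 := by
  rw [cell, Finset.card_image_of_injective _ (fun p q h => tri_inj t p q h)]
  rfl

theorem ne_add_one : ∀ p : Fin 3, p + 1 ≠ p := by decide

theorem ne_add_two : ∀ p : Fin 3, p + 2 ≠ p := by decide

theorem inM0 (t : Fin 56) : InM V0 (cell t) := by
  refine ⟨card_cell t, ?_, ?_⟩
  · rw [linearIndepOn_finset_iff]
    intro f hf i hi
    rw [mem_cell] at hi
    obtain ⟨p, rfl⟩ := hi
    have h := congrArg (lin (nrm t p)) hf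
    rw [map_sum, map_zero] at h
    rw [Finset.sum_eq_single (tri t p)] at h
    · rw [map_smul, lin_toR, smul_eq_mul] at h
      have hpos : (0 : ℝ) < ((dotZ (nrm t p) (V0 (tri t p)) : ℤ) : ℝ) := by
        exact_mod_cast nrm_self t p
      rcases mul_eq_zero.mp h with h | h
      · exact h
      · exact absurd h hpos.ne'
    · intro j hj hjp
      rw [mem_cell] at hj
      obtain ⟨q, rfl⟩ := hj
      have hq : q ≠ p := fun e => hjp (by rw [e])
      rw [map_smul, lin_toR, nrm_other t p q hq]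
      simp
    · intro h'
      exact absurd ((mem_cell t _).mpr ⟨p, rfl⟩) h'
  · intro j hj hcone
    have hj' : ∀ p, tri t p ≠ j := fun p e => hj ((mem_cell t j).mpr ⟨p, e⟩)
    obtain ⟨p, hp⟩ := empty0 t j hj'
    have h := lin_nonneg (a := nrm t p) (S := cell t) (V := V0) (by
      intro i hi
      rw [mem_cell] at hi
      obtain ⟨q, rfl⟩ := hi
      by_cases hq : q = p
      · subst hq; exact (nrm_self t q).le
      · rw [nrm_other t p q hq]) hcone
    rw [lin_toR] at h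
    have h' : 0 ≤ dotZ (nrm t p) (V0 j) := by exact_mod_cast h
    omega

theorem cell_ne (t : Fin 56) (p : Fin 3) : cell (nb t p) ≠ cell t := by
  intro h
  obtain ⟨q, hq⟩ := nb_other t p
  have : tri (nb t p) q ∈ cell t := by
    rw [← h]; exact (mem_cell _ _).mpr ⟨q, rfl⟩
  rw [mem_cell] at this
  obtain ⟨r, hr⟩ := this
  exact hq r hr

theorem erase_subset (t : Fin 56) (p : Fin 3) : (cell t).erase (tri t p) ⊆ cell (nb t p) := by
  intro x hx
  rw [Finset.mem_erase, mem_cell] at hx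
  obtain ⟨hxp, q, rfl⟩ := hx
  have hq : q ≠ p := fun e => hxp (by rw [e])
  rw [mem_cell]
  exact nb_mem t p q hq

theorem cell_unique (t : Fin 56) (p : Fin 3) (s : Fin 56) (hs : cell s ≠ cell t)
    (hsub : (cell t).erase (tri t p) ⊆ cell s) : s = nb t p := by
  have h1 : tri t (p + 1) ∈ cell s := by
    apply hsub
    rw [Finset.mem_erase, mem_cell]
    exact ⟨fun e => ne_add_one p (tri_inj t _ _ e), p + 1, rfl⟩
  have h2 : tri t (p + 2) ∈ cell s := by
    apply hsub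
    rw [Finset.mem_erase, mem_cell]
    exact ⟨fun e => ne_add_two p (tri_inj t _ _ e), p + 2, rfl⟩
  rw [mem_cell] at h1 h2
  rcases nb_unique t p s h1 h2 with h | h
  · exact absurd (by rw [h]) hs
  · exact h

theorem pseudofan0 : IsPseudofan V0 C0 := by
  refine ⟨?_, ?_, ?_⟩
  · intro S hS
    rw [mem_C0] at hS
    obtain ⟨t, rfl⟩ := hS
    exact inM0 t
  · intro i
    obtain ⟨t, p, hp⟩ := rays0 i
    exact ⟨cell t, (mem_C0 _).mpr ⟨t, rfl⟩, (mem_cell t i).mpr ⟨p, hp⟩⟩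
  · intro S hS i hi
    rw [mem_C0] at hS
    obtain ⟨t, rfl⟩ := hS
    rw [mem_cell] at hi
    obtain ⟨p, rfl⟩ := hi
    refine ⟨cell (nb t p), (mem_C0 _).mpr ⟨_, rfl⟩, cell_ne t p, erase_subset t p, ?_,
      lin (nrm t p), ?_, ?_, ?_⟩
    · intro T' hT' hne hsub
      rw [mem_C0] at hT'
      obtain ⟨s, rfl⟩ := hT'
      rw [cell_unique t p s hne hsub]
    · intro j hj
      rw [Finset.mem_erase, mem_cell] at hj
      obtain ⟨hjp, q, rfl⟩ := hj
      have hq : q ≠ p := fun e => hjp (by rw [e])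
      rw [lin_toR, nrm_other t p q hq]
      simp
    · rw [lin_toR]
      exact_mod_cast nrm_self t p
    · intro x hx
      apply lin_nonpos _ hx
      intro i hi
      rw [mem_cell] at hi
      obtain ⟨q, rfl⟩ := hi
      exact nb_side t p q

/-- The pseudofan is minimal. -/
theorem minimal0 (C' : Finset (Finset (Fin 16))) (hsub : C' ⊆ C0) (h : IsPseudofan V0 C') :
    C' = C0 := by
  have step : ∀ t : Fin 56, ∀ p : Fin 3, cell t ∈ C' → cell (nb t p) ∈ C' := by
    intro t p ht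
    obtain ⟨T, hT, hne, hs, -, -⟩ := h.facets (cell t) ht (tri t p) ((mem_cell _ _).mpr ⟨p, rfl⟩)
    have hT0 := hsub hT
    rw [mem_C0] at hT0
    obtain ⟨s, rfl⟩ := hT0
    rw [← cell_unique t p s hne hs]
    exact hT
  have up : ∀ N : ℕ, ∀ t : Fin 56, dep t ≤ N → cell t ∈ C' → cell 0 ∈ C' := by
    intro N
    induction N with
    | zero =>
      intro t ht hC
      by_cases h0 : t = 0
      · rw [← h0]; exact hC
      · have := (parent t h0).1
        omega
    | succ N ih =>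
      intro t ht hC
      by_cases h0 : t = 0
      · rw [← h0]; exact hC
      · have h1 := (parent t h0).1
        exact ih (nb t (pp t)) (by omega) (step t _ hC)
  have down : cell 0 ∈ C' → ∀ N : ℕ, ∀ t : Fin 56, dep t ≤ N → cell t ∈ C' := by
    intro hC N
    induction N with
    | zero =>
      intro t ht
      by_cases h0 : t = 0
      · rw [h0]; exact hC
      · have := (parent t h0).1
        omega
    | succ N ih =>
      intro t ht
      by_cases h0 : t = 0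
      · rw [h0]; exact hC
      · obtain ⟨h1, h2⟩ := parent t h0
        have h3 := step _ (qq t) (ih (nb t (pp t)) (by omega))
        rw [h2] at h3
        exact h3
  apply Finset.Subset.antisymm hsub
  intro S hS
  rw [mem_C0] at hS
  obtain ⟨t, rfl⟩ := hS
  obtain ⟨S₁, hS₁, -⟩ := h.rays 0
  have hS₁' := hsub hS₁
  rw [mem_C0] at hS₁'
  obtain ⟨t₁, rfl⟩ := hS₁'
  exact down (up _ t₁ le_rfl hS₁) _ t le_rfl

/-- The set where all three facet functionals are positive is contained in the cone. -/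
theorem pos_mem_cone (t : Fin 56) (x : Fin 3 → ℝ) (hx : ∀ p, 0 < lin (nrm t p) x) :
    x ∈ cone V0 (cell t) := by
  have hD : (0 : ℝ) < ((dotZ (nrm t 0) (V0 (tri t 0)) : ℤ) : ℝ) := by
    exact_mod_cast nrm_self t 0
  have hcr := cramer (V0 (tri t 0)) (V0 (tri t 1)) (V0 (tri t 2)) x
  have hn0 : nrm t 0 = crossZ (V0 (tri t 1)) (V0 (tri t 2)) := rfl
  have hn1 : nrm t 1 = crossZ (V0 (tri t 2)) (V0 (tri t 0)) := rfl
  have hn2 : nrm t 2 = crossZ (V0 (tri t 0)) (V0 (tri t 1)) := rfl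
  rw [← hn0, ← hn1, ← hn2] at hcr
  set D : ℝ := ((dotZ (nrm t 0) (V0 (tri t 0)) : ℤ) : ℝ) with hDdef
  have h01 : tri t 0 ≠ tri t 1 := fun e => absurd (tri_inj t _ _ e) (by decide)
  have h02 : tri t 0 ≠ tri t 2 := fun e => absurd (tri_inj t _ _ e) (by decide)
  have h12 : tri t 1 ≠ tri t 2 := fun e => absurd (tri_inj t _ _ e) (by decide)
  refine ⟨fun i => if i = tri t 0 then lin (nrm t 0) x / D else
    if i = tri t 1 then lin (nrm t 1) x / D else
    if i = tri t 2 then lin (nrm t 2) x / D else 0, ?_, ?_, ?_⟩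
  · intro i
    dsimp only
    split_ifs
    · exact div_nonneg (hx 0).le hD.le
    · exact div_nonneg (hx 1).le hD.le
    · exact div_nonneg (hx 2).le hD.le
    · exact le_rfl
  · intro i hi
    rw [mem_cell] at hi
    push Not at hi
    dsimp only
    rw [if_neg (hi 0).symm, if_neg (hi 1).symm, if_neg (hi 2).symm]
  · have hsum : ∑ i, (if i = tri t 0 then lin (nrm t 0) x / D else
        if i = tri t 1 then lin (nrm t 1) x / D else
        if i = tri t 2 then lin (nrm t 2) x / D else 0) • toR (V0 i) =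
        ∑ i ∈ ({tri t 0, tri t 1, tri t 2} : Finset (Fin 16)),
        (if i = tri t 0 then lin (nrm t 0) x / D else
        if i = tri t 1 then lin (nrm t 1) x / D else
        if i = tri t 2 then lin (nrm t 2) x / D else 0) • toR (V0 i) := by
      symm
      apply Finset.sum_subset (Finset.subset_univ _)
      intro i _ hi
      simp only [Finset.mem_insert, Finset.mem_singleton, not_or] at hi
      rw [if_neg hi.1, if_neg hi.2.1, if_neg hi.2.2, zero_smul]
    rw [hsum, Finset.sum_insert (by simp [h01, h02]), Finset.sum_insert (by simp [h12]),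
      Finset.sum_singleton]
    rw [if_pos rfl, if_neg h01.symm, if_pos rfl, if_neg h02.symm, if_neg h12.symm, if_pos rfl]
    ext k
    have h := congrFun hcr k
    simp only [Pi.smul_apply, Pi.add_apply, smul_eq_mul] at h ⊢
    have hD' := hD.ne'
    field_simp
    linarith

theorem pos_mem_interior (t : Fin 56) (x : Fin 3 → ℝ) (hx : ∀ p, 0 < lin (nrm t p) x) :
    x ∈ interior (cone V0 (cell t)) := by
  rw [mem_interior]
  refine ⟨{y | ∀ p, 0 < lin (nrm t p) y}, fun y hy => pos_mem_cone t y hy, ?_, hx⟩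
  have hset : {y : Fin 3 → ℝ | ∀ p, 0 < lin (nrm t p) y} =
      ⋂ p : Fin 3, {y | 0 < lin (nrm t p) y} := by
    ext y; simp
  rw [hset]
  apply isOpen_iInter_of_finite
  intro p
  exact isOpen_lt continuous_const (LinearMap.continuous_of_finiteDimensional _)

/-- A point in the interior of the two cones `4` and `12`. -/
def pt : Fin 3 → ℤ := ![0, 0, 1]

theorem pt_pos (t : Fin 56) (ht : t = 4 ∨ t = 12) : ∀ p, 0 < lin (nrm t p) (toR pt) := by
  have h : ∀ t : Fin 56, t = 4 ∨ t = 12 → ∀ p : Fin 3, 0 < dotZ (nrm t p) pt := by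
    decide +kernel
  intro p
  rw [lin_toR]
  exact_mod_cast h t ht p

theorem cells_ne : cell 4 ≠ cell 12 := by
  intro h
  have h' : ∃ q : Fin 3, ∀ r, tri 12 r ≠ tri 4 q := by decide +kernel
  obtain ⟨q, hq⟩ := h'
  have : tri 4 q ∈ cell 12 := by
    rw [← h]; exact (mem_cell _ _).mpr ⟨q, rfl⟩
  rw [mem_cell] at this
  obtain ⟨r, hr⟩ := this
  exact hq r hr

/-- The pseudofan is not the set of maximal cones of a complete simplicial fan. -/
theorem not_fan0 : ¬ IsMaxConesOfFan V0 C0 := by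
  rintro ⟨F, hF, hC⟩
  have hmem : ∀ t, cell t ∈ F := by
    intro t
    have : cell t ∈ (C0 : Set (Finset (Fin 16))) := by
      exact_mod_cast (mem_C0 _).mpr ⟨t, rfl⟩
    rw [hC] at this
    exact this.1
  obtain ⟨U, hU1, hU2, hU⟩ := hF.inter _ (hmem 4) _ (hmem 12)
  have hx : toR pt ∈ cone V0 U := by
    rw [← hU]
    exact ⟨pos_mem_cone _ _ (pt_pos _ (Or.inl rfl)), pos_mem_cone _ _ (pt_pos _ (Or.inr rfl))⟩
  have hne : U ≠ cell 4 := by
    intro h
    apply cells_ne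
    apply Finset.eq_of_subset_of_card_le (h ▸ hU2)
    rw [card_cell, card_cell]
  have hex : ∃ p, tri 4 p ∉ U := by
    by_contra hcon
    push Not at hcon
    apply hne
    apply Finset.Subset.antisymm hU1
    intro x hx
    rw [mem_cell] at hx
    obtain ⟨p, rfl⟩ := hx
    exact hcon p
  obtain ⟨p, hp⟩ := hex
  have hle : lin (nrm 4 p) (toR pt) ≤ 0 := by
    apply lin_nonpos _ hx
    intro i hi
    have hi' := hU1 hi
    rw [mem_cell] at hi'
    obtain ⟨q, rfl⟩ := hi'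
    have hq : q ≠ p := fun e => hp (by rw [← e]; exact hi)
    rw [nrm_other _ p q hq]
  exact absurd (pt_pos 4 (Or.inl rfl) p) (not_lt.mpr hle)

theorem generates0 (x : Fin 3 → ℝ) : x ∈ cone V0 Finset.univ := by
  -- columns 0, 2, 8 and 1 positively span `ℝ^3`
  have hcr := cramer (V0 0) (V0 2) (V0 8) x
  have hcl := cramer (V0 0) (V0 2) (V0 8) (toR (V0 1))
  rw [lin_toR, lin_toR, lin_toR] at hcl
  have hD : dotZ (crossZ (V0 2) (V0 8)) (V0 0) = 2 := by decide +kernel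
  have hr0 : dotZ (crossZ (V0 2) (V0 8)) (V0 1) = -664 := by decide +kernel
  have hr1 : dotZ (crossZ (V0 8) (V0 0)) (V0 1) = -560 := by decide +kernel
  have hr2 : dotZ (crossZ (V0 0) (V0 2)) (V0 1) = -858 := by decide +kernel
  rw [hD] at hcr hcl
  rw [hr0, hr1, hr2] at hcl
  set s0 := lin (crossZ (V0 2) (V0 8)) x
  set s1 := lin (crossZ (V0 8) (V0 0)) x
  set s2 := lin (crossZ (V0 0) (V0 2)) x
  set T : ℝ := |s0| + |s1| + |s2| with hT
  have hT0 : 0 ≤ T := by positivity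
  have b0 : 0 ≤ s0 + 664 * T := by
    have := neg_abs_le s0
    have h1 := abs_nonneg s1
    have h2 := abs_nonneg s2
    have h0 := abs_nonneg s0
    rw [hT]; linarith
  have b1 : 0 ≤ s1 + 560 * T := by
    have := neg_abs_le s1
    have h1 := abs_nonneg s1
    have h2 := abs_nonneg s2
    have h0 := abs_nonneg s0
    rw [hT]; linarith
  have b2 : 0 ≤ s2 + 858 * T := by
    have := neg_abs_le s2
    have h1 := abs_nonneg s1
    have h2 := abs_nonneg s2
    have h0 := abs_nonneg s0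
    rw [hT]; linarith
  have hfin : x = (((s0 + 664 * T) / 2) • toR (V0 0)) + (((s1 + 560 * T) / 2) • toR (V0 2))
      + (((s2 + 858 * T) / 2) • toR (V0 8)) + (T • toR (V0 1)) := by
    ext k
    have h1 := congrFun hcr k
    have h2 := congrFun hcl k
    simp only [Pi.smul_apply, Pi.add_apply, smul_eq_mul] at h1 h2 ⊢
    push_cast at h1 h2
    linear_combination (1 / 2) * h1 - (T / 2) * h2
  refine ⟨fun i => (if i = 0 then (s0 + 664 * T) / 2 else 0) +
    (if i = 2 then (s1 + 560 * T) / 2 else 0) + (if i = 8 then (s2 + 858 * T) / 2 else 0) +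
    (if i = 1 then T else 0), ?_, ?_, ?_⟩
  · intro i
    dsimp only
    have c0 : (0 : ℝ) ≤ if i = 0 then (s0 + 664 * T) / 2 else 0 := by
      split_ifs
      · positivity
      · exact le_rfl
    have c1 : (0 : ℝ) ≤ if i = 2 then (s1 + 560 * T) / 2 else 0 := by
      split_ifs
      · positivity
      · exact le_rfl
    have c2 : (0 : ℝ) ≤ if i = 8 then (s2 + 858 * T) / 2 else 0 := by
      split_ifs
      · positivity
      · exact le_rfl
    have c3 : (0 : ℝ) ≤ if i = 1 then T else 0 := by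
      split_ifs
      · exact hT0
      · exact le_rfl
    linarith
  · intro i hi
    exact absurd (Finset.mem_univ i) hi
  · simp only [add_smul, Finset.sum_add_distrib, ite_smul, zero_smul, Finset.sum_ite_eq',
      Finset.mem_univ, if_true]
    exact hfin

theorem fmatrix0 : IsFMatrix V0 := by
  refine ⟨?_, ?_, ?_, generates0, ?_⟩
  · rw [eq_top_iff]
    intro x _
    obtain ⟨c, -, -, hx⟩ := generates0 x
    rw [hx]
    apply Submodule.sum_mem
    intro i _
    apply Submodule.smul_mem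
    exact Submodule.subset_span ⟨i, rfl⟩
  · have h : ∀ i : Fin 16, ∃ k : Fin 3, V0 i k ≠ 0 := by decide +kernel
    intro i hi
    obtain ⟨k, hk⟩ := h i
    exact hk (congrFun hi k)
  · have h : ∀ i j : Fin 16, i ≠ j → ∃ k l : Fin 3, V0 i k * V0 j l ≠ V0 i l * V0 j k := by
      decide +kernel
    rintro i j hij ⟨t, -, ht⟩
    obtain ⟨k, l, hkl⟩ := h i j hij
    have h1 := congrFun ht k
    have h2 := congrFun ht l
    simp only [toR, Pi.smul_apply, smul_eq_mul] at h1 h2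
    apply hkl
    have : ((V0 i k * V0 j l : ℤ) : ℝ) = ((V0 i l * V0 j k : ℤ) : ℝ) := by
      push_cast
      rw [h1, h2]; ring
    exact_mod_cast this
  · have h : ∀ i : Fin 16, dotZ (bez i) (V0 i) = 1 := by decide +kernel
    intro i d hd
    have h1 : (d : ℤ) ∣ dotZ (bez i) (V0 i) := by
      unfold dotZ
      exact dvd_add (dvd_add ((hd 0).mul_left _) ((hd 1).mul_left _)) ((hd 2).mul_left _)
    rw [h i] at h1
    have h2 : (d : ℤ).natAbs ∣ 1 := Int.natAbs_dvd_natAbs.mpr h1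
    simpa using h2

/-- **Disproof of Q1.**  There are an F-matrix `V` of size `3 × 16` and a pseudofan `C` of `V`
which is not the set of maximal cones of a complete simplicial fan of `V`; two different cones of
`C` have intersecting interiors.  Moreover `C` is a minimal pseudofan. -/
theorem result : ∃ (V : Fin 16 → Fin 3 → ℤ) (C : Finset (Finset (Fin 16))),
    IsFMatrix V ∧ IsPseudofan V C ∧ ¬ IsMaxConesOfFan V C ∧
    (∀ C' : Finset (Finset (Fin 16)), C' ⊆ C → IsPseudofan V C' → C' = C) ∧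
    (∃ S ∈ C, ∃ T ∈ C, S ≠ T ∧ (interior (cone V S) ∩ interior (cone V T)).Nonempty) :=
  ⟨V0, C0, fmatrix0, pseudofan0, not_fan0, fun C' h1 h2 => minimal0 C' h1 h2,
    cell 4, (mem_C0 _).mpr ⟨_, rfl⟩, cell 12, (mem_C0 _).mpr ⟨_, rfl⟩, cells_ne,
    toR pt, pos_mem_interior _ _ (pt_pos _ (Or.inl rfl)),
    pos_mem_interior _ _ (pt_pos _ (Or.inr rfl))⟩

end Pool.Agent.Results.MP_d9dcf6_co.DoubleCover
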